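import Pool.Agent.TH615.J4025

set_option autoImplicit false

/-!
A uniform lower bound of the Hermitian form near the real direction `e₁` (compactness).
-/

namespace Pool.Agent.TH566.GV

open Finset MeasureTheory Pool.Agent.TH598.GV
open scoped ComplexConjugate ComplexOrder

lemma qf_swap {I : Type} [Fintype I] {H : I → I → I → I → ℂ} (hH : HS H) (z w : I → ℂ) :
    qf H z w = qf H w z := by
  have ha : ∀ i j k l, H i j l k = - H i j k l := by
    intro i j k l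
    have h1 := hH.herm l k i j
    have h2 := hH.herm k l i j
    rw [h1, h2, hH.alt k l i j, map_neg]
  unfold qf
  rw [Finset.sum_comm]
  refine Finset.sum_congr rfl fun j _ => Finset.sum_congr rfl fun i _ => ?_
  rw [Finset.sum_comm]
  refine Finset.sum_congr rfl fun l _ => Finset.sum_congr rfl fun k _ => ?_
  rw [hH.alt j i k l, ha j i l k]
  ring

lemma wv_e1 {k : ℕ} (u : K k → ℂ) : wv u e1 = 1 := by
  unfold wv
  rw [if_pos rfl, Finset.sum_eq_zero, add_zero]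
  intro j _
  rw [if_neg, mul_zero]
  intro h
  exact absurd (congrArg Prod.fst h) (Fin.succ_ne_zero _).symm

lemma wv_e0 {k : ℕ} (u : K k → ℂ) : wv u e0 = 0 := by
  unfold wv
  rw [if_neg (by intro h; exact absurd (congrArg Prod.snd h) (by simp [e0, e1])),
    Finset.sum_eq_zero, add_zero]
  intro j _
  rw [if_neg, mul_zero]
  intro h
  exact absurd (congrArg Prod.fst h) (Fin.succ_ne_zero _).symm

lemma cont_phi {k : ℕ} (H : Ix k → Ix k → Ix k → Ix k → ℂ) :
    Continuous fun p : (Ix k → ℂ) × (K k → ℂ) => (qf H p.1 (wv p.2)).re := by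
  have h1 : Continuous fun p : (Ix k → ℂ) × (K k → ℂ) => wv p.2 := by
    unfold wv
    fun_prop
  have h2 : ∀ j, Continuous fun p : (Ix k → ℂ) × (K k → ℂ) => wv p.2 j := fun j =>
    (continuous_apply j).comp h1
  unfold qf
  refine Complex.continuous_re.comp ?_
  refine continuous_finsetSum _ fun i _ => continuous_finsetSum _ fun j _ =>
    continuous_finsetSum _ fun i' _ => continuous_finsetSum _ fun j' _ => ?_
  refine continuous_const.mul (((((continuous_apply i).comp continuous_fst).mul (h2 j)).mul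
    (Complex.continuous_conj.comp ((continuous_apply i').comp continuous_fst))).mul
    (Complex.continuous_conj.comp (h2 j')))

lemma n2_cont {I : Type} [Fintype I] : Continuous fun z : I → ℂ => Pool.Agent.TH615.J4025.n2 z := by
  unfold Pool.Agent.TH615.J4025.n2
  fun_prop

/-- the unit vectors with `z e₁ = 0` -/
def ZZ (k : ℕ) : Set (Ix k → ℂ) := {z | z e1 = 0 ∧ Pool.Agent.TH615.J4025.n2 z = 1}

lemma ZZ_compact (k : ℕ) : IsCompact (ZZ k) := by
  refine Metric.isCompact_of_isClosed_isBounded ?_ ?_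
  · exact (isClosed_eq (continuous_apply e1) continuous_const).inter
      (isClosed_eq n2_cont continuous_const)
  · refine (Metric.isBounded_closedBall (x := (0 : Ix k → ℂ)) (r := 1)).subset ?_
    intro z hz
    rw [mem_closedBall_zero_iff, pi_norm_le_iff_of_nonneg zero_le_one]
    intro i
    have : ‖z i‖ ^ 2 ≤ 1 := by
      rw [← hz.2]
      exact Finset.single_le_sum (f := fun i => ‖z i‖ ^ 2) (fun _ _ => by positivity)
        (Finset.mem_univ i)
    nlinarith [norm_nonneg (z i)]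

lemma ZZ_nonempty (k : ℕ) : (ZZ k).Nonempty := by
  refine ⟨fun i => if i = e0 then 1 else 0, ?_, ?_⟩
  · show (if (e1 : Ix k) = e0 then (1 : ℂ) else 0) = 0
    rw [if_neg]
    intro h
    exact absurd (congrArg Prod.snd h) (by simp [e0, e1])
  · unfold Pool.Agent.TH615.J4025.n2
    rw [Finset.sum_eq_single e0]
    · simp
    · intro i _ hi
      simp [hi]
    · simp

lemma tube {k : ℕ} (φ : (Ix k → ℂ) × (K k → ℂ) → ℝ) (hcont : Continuous φ)
    (hpos : ∀ z ∈ ZZ k, 0 < φ (z, fun _ => 0)) :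
    ∃ m r : ℝ, 0 < m ∧ 0 < r ∧ ∀ (y : Ix k → ℂ) (u : K k → ℂ), y ∈ ZZ k →
      ∑ j, ‖u j‖ ^ 2 < r ^ 2 → m ≤ φ (y, u) := by
  obtain ⟨z₀, hz₀, hmin⟩ := (ZZ_compact k).exists_isMinOn (ZZ_nonempty k)
    (f := fun z => φ (z, fun _ => 0)) (hcont.comp (by fun_prop)).continuousOn
  have hm0 : 0 < φ (z₀, fun _ => 0) := hpos z₀ hz₀
  obtain ⟨m, hm⟩ : ∃ m, m = φ (z₀, fun _ => 0) := ⟨_, rfl⟩
  rw [← hm] at hm0
  have hopen : IsOpen {p : (Ix k → ℂ) × (K k → ℂ) | m / 2 < φ p} := isOpen_lt continuous_const hcont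
  obtain ⟨U, V, hU, hV, hZU, h0V, hUV⟩ := generalized_tube_lemma (ZZ_compact k)
    (isCompact_singleton (x := (fun _ => 0 : K k → ℂ))) hopen (by
      rintro ⟨z, u⟩ ⟨hz, hu⟩
      have hu' : u = fun _ => 0 := hu
      have h1 : φ (z₀, fun _ => 0) ≤ φ (z, fun _ => 0) := hmin hz
      rw [← hm] at h1
      rw [hu']
      show m / 2 < φ (z, fun _ => 0)
      linarith)
  obtain ⟨r, hr, hrV⟩ := Metric.isOpen_iff.1 hV (fun _ => 0) (h0V (Set.mem_singleton _))
  refine ⟨m / 2, r, by linarith, hr, fun y u hy hu => ?_⟩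
  have huV : u ∈ V := by
    apply hrV
    rw [mem_ball_iff_norm]
    have e : u - (fun _ => 0) = u := by funext j; simp
    rw [e, pi_norm_lt_iff hr]
    intro j
    have h1 : ‖u j‖ ^ 2 ≤ ∑ j, ‖u j‖ ^ 2 :=
      Finset.single_le_sum (f := fun i => ‖u i‖ ^ 2) (fun _ _ => by positivity) (Finset.mem_univ j)
    exact lt_of_pow_lt_pow_left₀ 2 hr.le (lt_of_le_of_lt h1 hu)
  have h2 : (y, u) ∈ {p : (Ix k → ℂ) × (K k → ℂ) | m / 2 < φ p} :=
    hUV (Set.mk_mem_prod (hZU hy) huV)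
  exact le_of_lt h2

lemma scale {k : ℕ} (H : Ix k → Ix k → Ix k → Ix k → ℂ) (m : ℝ) (hm : 0 < m) (w : Ix k → ℂ)
    (hb : ∀ y ∈ ZZ k, m ≤ (qf H y w).re) (z' : Ix k → ℂ) (h1 : z' e1 = 0) (h0 : z' e0 = 1) :
    m ≤ (qf H z' w).re := by
  have hn : 1 ≤ Pool.Agent.TH615.J4025.n2 z' := by
    unfold Pool.Agent.TH615.J4025.n2
    have h2 := Finset.single_le_sum (f := fun i => ‖z' i‖ ^ 2) (fun _ _ => by positivity)
      (Finset.mem_univ (e0 : Ix k))
    simp only [h0] at h2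
    simpa using h2
  obtain ⟨N, hN⟩ : ∃ N, N = Pool.Agent.TH615.J4025.n2 z' := ⟨_, rfl⟩
  rw [← hN] at hn
  obtain ⟨s, hs⟩ : ∃ s, s = Real.sqrt N := ⟨_, rfl⟩
  have hs0 : 0 < s := hs ▸ Real.sqrt_pos.2 (by linarith)
  have hs2 : s ^ 2 = N := by rw [hs]; exact Real.sq_sqrt (by linarith)
  have hsc : (s : ℂ) ≠ 0 := by exact_mod_cast hs0.ne'
  obtain ⟨y, hy⟩ : ∃ y : Ix k → ℂ, ∀ i, y i = ((s⁻¹ : ℝ) : ℂ) * z' i := ⟨_, fun _ => rfl⟩
  have hyZ : y ∈ ZZ k := by
    refine ⟨by rw [hy, h1, mul_zero], ?_⟩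
    unfold Pool.Agent.TH615.J4025.n2
    have e : ∀ i, ‖y i‖ ^ 2 = s⁻¹ ^ 2 * ‖z' i‖ ^ 2 := by
      intro i
      rw [hy, norm_mul, Complex.norm_real, Real.norm_eq_abs, abs_of_pos (inv_pos.2 hs0), mul_pow]
    simp only [e]
    rw [← Finset.mul_sum]
    have e2 : ∑ i, ‖z' i‖ ^ 2 = N := by rw [hN]; rfl
    rw [e2, ← hs2]
    field_simp
  have hyb := hb y hyZ
  have hsm : qf H z' w = ((s ^ 2 : ℝ) : ℂ) * qf H y w := by
    have e := Pool.Agent.TH615.J4025.qf_smul H y w s 1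
    have e1 : (fun i => ((s : ℝ) : ℂ) * y i) = z' := by
      funext i
      rw [hy, ← mul_assoc, ← Complex.ofReal_mul, mul_inv_cancel₀ hs0.ne', Complex.ofReal_one, one_mul]
    have e2 : (fun i => ((1 : ℝ) : ℂ) * w i) = w := by funext i; simp
    rw [e1, e2] at e
    rw [e, one_pow, mul_one]
  rw [hsm, Complex.re_ofReal_mul, hs2]
  nlinarith

/-- a uniform lower bound near the real direction `e₁` -/
theorem locbd {k : ℕ} (H : Ix k → Ix k → Ix k → Ix k → ℂ) (hH : HS H)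
    (h : ∀ z : Ix k → ℂ, z e1 = 0 → z ≠ 0 → 0 < (qf H z (wv fun _ => 0)).re) :
    ∃ c r : ℝ, 0 < c ∧ 0 < r ∧ ∀ (b : Ix k → ℂ) (u : K k → ℂ), b e0 = 0 →
      ∑ j, ‖u j‖ ^ 2 < r ^ 2 →
      c ≤ (qf H (fun i => (if i = e0 then 1 else 0) - b i) (wv u)).re := by
  obtain ⟨m, r, hm, hr, hb⟩ := tube (fun p => (qf H p.1 (wv p.2)).re) (cont_phi H) (by
    intro z hz
    refine h z hz.1 ?_
    intro h0
    have h1 := hz.2
    rw [h0] at h1
    unfold Pool.Agent.TH615.J4025.n2 at h1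
    simp at h1)
  refine ⟨m, r, hm, hr, fun b u hb0 hu => ?_⟩
  obtain ⟨z, hz⟩ : ∃ z : Ix k → ℂ, z = fun i => (if i = e0 then 1 else 0) - b i := ⟨_, rfl⟩
  rw [← hz]
  have hq : qf H (fun i => z i + (-z e1) * wv u i) (wv u) = qf H z (wv u) := by
    rw [qf_swap hH _ (wv u), qf_swap hH z]
    exact Pool.Agent.TH615.J4025.qf_shear hH (wv u) z (-z e1)
  rw [← hq]
  refine scale H m hm (wv u) (fun y hy => hb y u hy hu) _ ?_ ?_
  · show z e1 + (-z e1) * wv u e1 = 0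
    rw [wv_e1]; ring
  · show z e0 + (-z e1) * wv u e0 = 1
    rw [wv_e0, hz]
    show (if (e0 : Ix k) = e0 then (1 : ℂ) else 0) - b e0 + _ = 1
    rw [hb0, if_pos rfl]; ring

end Pool.Agent.TH566.GV
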